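import Pool.Agent.Work.MP_79a731_al.CS.Main
import Pool.Agent.Work.MP_79a731_al.CS.I_C1
import Pool.Agent.Work.MP_79a731_al.CS.I_C2
import Pool.Agent.Work.MP_79a731_al.CS.I_C3
import Pool.Agent.Work.MP_79a731_al.CS.I_C4a
import Pool.Agent.Work.MP_79a731_al.CS.I_C4b
import Pool.Agent.Work.MP_79a731_al.CS.I_C4
import Pool.Agent.Work.MP_79a731_al.CS.I_C5
import Pool.Agent.Work.MP_79a731_al.CS.I_C6a
import Pool.Agent.Work.MP_79a731_al.CS.I_C6b
import Pool.Agent.Work.MP_79a731_al.CS.I_C7a
import Pool.Agent.Work.MP_79a731_al.CS.I_C7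
import Pool.Agent.Work.MP_79a731_al.CS.I_C8

/-!
Subgroups `L` (not necessarily normal) without coinvariants on a nonzero finitely generated
projective module `P` over an integral group ring, i.e. with `ℤ ⊗_{ℤL} P = 0`. For `L = G` this is
the condition `IP = P` of the problem. All of them are infinite, one finite set without `1` meets all
their conjugates, and below each of them there is a minimal one, which is perfect and has no
relatively p-indicable proper subgroup for any prime p.
-/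

set_option autoImplicit false

namespace Pool.Agent.Results.MP_79a731_al.ConfinedSubgroups

open Pool.MP_79a731_al.CS

universe u v

/-- `ℤ ⊗_{ℤL} P = 0`: the additive group `P` is generated by the elements `(g - 1) x` with `g ∈ L`,
`x ∈ P` -/
def NoCoinvariants {G : Type u} [Group G] (L : Subgroup G) (P : Type v) [AddCommGroup P]
    [Module (MonoidAlgebra ℤ G) P] : Prop :=
  AddSubgroup.closure {x : P | ∃ g ∈ L, ∃ m : P,
    x = (MonoidAlgebra.single g (1 : ℤ) - 1 : MonoidAlgebra ℤ G) • m} = ⊤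

lemma smul_mem {G : Type u} [Group G] {P : Type v} [AddCommGroup P]
    [Module (MonoidAlgebra ℤ G) P] (r : MonoidAlgebra ℤ G) (g : G) (m : P) :
    r • ((MonoidAlgebra.single g (1 : ℤ) - 1 : MonoidAlgebra ℤ G) • m) ∈
      AddSubgroup.closure {x : P | ∃ g ∈ (⊤ : Subgroup G), ∃ m : P,
        x = (MonoidAlgebra.single g (1 : ℤ) - 1 : MonoidAlgebra ℤ G) • m} := by
  induction r using MonoidAlgebra.induction_linear with
  | zero => rw [zero_smul]; exact AddSubgroup.zero_mem _
  | add x y hx hy => rw [add_smul]; exact AddSubgroup.add_mem _ hx hy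
  | single k a =>
    have h2 : (MonoidAlgebra.single k a : MonoidAlgebra ℤ G) = a • MonoidAlgebra.single k 1 := by
      rw [MonoidAlgebra.smul_single, smul_eq_mul, mul_one]
    have h3 : (MonoidAlgebra.single k (1 : ℤ) : MonoidAlgebra ℤ G) *
        (MonoidAlgebra.single g (1 : ℤ) - 1) =
        (MonoidAlgebra.single (k * g * k⁻¹) (1 : ℤ) - 1) * MonoidAlgebra.single k (1 : ℤ) := by
      rw [mul_sub, sub_mul, MonoidAlgebra.single_mul_single, MonoidAlgebra.single_mul_single,
        mul_one, one_mul, mul_one, inv_mul_cancel_right]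
    rw [h2, smul_assoc, ← mul_smul, h3, mul_smul]
    refine AddSubgroup.zsmul_mem _ ?_ a
    exact AddSubgroup.subset_closure ⟨_, Subgroup.mem_top _, _, rfl⟩

theorem result {G : Type u} [Group G] (P : Type v) [AddCommGroup P]
    [Module (MonoidAlgebra ℤ G) P] (hfin : Module.Finite (MonoidAlgebra ℤ G) P)
    (hproj : Module.Projective (MonoidAlgebra ℤ G) P) (hnt : Nontrivial P) :
    (Submodule.span (MonoidAlgebra ℤ G) {x : P | ∃ (g : G) (m : P),
        x = (MonoidAlgebra.single g (1 : ℤ) - 1 : MonoidAlgebra ℤ G) • m} = ⊤ →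
      NoCoinvariants (⊤ : Subgroup G) P) ∧
    ∃ F : Finset G, (1 : G) ∉ F ∧ ∀ L : Subgroup G, NoCoinvariants L P →
      (∀ g : G, ∃ v ∈ L, g * v * g⁻¹ ∈ F) ∧ Infinite L ∧
      ∃ V : Subgroup G, V ≤ L ∧ NoCoinvariants V P ∧
        (∀ M : Subgroup G, M < V → ¬ NoCoinvariants M P) ∧ ⁅V, V⁆ = V ∧
        ∀ M : Subgroup G, M < V → ∀ p : ℕ, p.Prime →
          ∃ B : Subgroup G, M < B ∧ B ≤ V ∧
            (∃ S : Finset G, B = M ⊔ Subgroup.closure (S : Set G)) ∧
            ∀ χ : B →* Multiplicative (ZMod p), (∀ b : B, (b : G) ∈ M → χ b = 1) → χ = 1 := by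
  refine ⟨fun h => ?_, ?_⟩
  · unfold NoCoinvariants
    rw [eq_top_iff]
    intro x _
    have hx : x ∈ Submodule.span (MonoidAlgebra ℤ G) {x : P | ∃ (g : G) (m : P),
        x = (MonoidAlgebra.single g (1 : ℤ) - 1 : MonoidAlgebra ℤ G) • m} := by
      rw [h]; exact Submodule.mem_top
    rw [Submodule.mem_span_set'] at hx
    obtain ⟨n, f, g, rfl⟩ := hx
    refine AddSubgroup.sum_mem _ fun i _ => ?_
    obtain ⟨k, m, hk⟩ := (g i).2
    rw [hk]
    exact smul_mem _ _ _
  · exact main pr_C1 pr_C2 pr_C3 (pr_C4 pr_C4a pr_C4b) (pr_C6 pr_C5 pr_C6a pr_C6b) (pr_C7 pr_C7a)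
      pr_C8 P hfin hproj hnt

end Pool.Agent.Results.MP_79a731_al.ConfinedSubgroups
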