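import Pool.Agent.Work.MP_79a731_al.H5.Mod

/-!
The class of groups without nonzero finitely generated perfect projective modules is closed under
extensions by kernels which have, locally, a complete normal system with factors that are abelian, or
contain no rational numbers in finitely many classes, or are locally `p`-indicable for some `p`.
-/

set_option autoImplicit false

namespace Pool.Agent.Results.MP_79a731_al.ExtensionClosure

open Pool.MP_79a731_al.H5

universe u v

/-- The augmentation ideal `I` of the integral group ring. -/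
noncomputable def augIdeal (G : Type u) [Group G] : Ideal (MonoidAlgebra ℤ G) :=
  Ideal.span (Set.range (fun g : G =>
    (MonoidAlgebra.single g (1 : ℤ) - 1 : MonoidAlgebra ℤ G)))

/-- Every finitely generated projective module `M` with `I M = M` is zero. -/
def NoPerfectProjective (G : Type u) [Group G] : Prop :=
  ∀ (M : Type v) [AddCommGroup M] [Module (MonoidAlgebra ℤ G) M],
    Module.Finite (MonoidAlgebra ℤ G) M → Module.Projective (MonoidAlgebra ℤ G) M →
    Submodule.span (MonoidAlgebra ℤ G) {x : M | ∃ r ∈ augIdeal G, ∃ m : M, x = r • m} = ⊤ →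
    Subsingleton M

/-- For `A ≤ B` with `A` normal in `H`, the factor `B / A` is abelian. -/
def AbelianFactor {H : Type u} [Group H] (A B : Subgroup H) : Prop := ⁅B, B⁆ ≤ A

/-- The factor `B / A` contains a copy of the rational numbers whose nontrivial elements lie in
finitely many conjugacy classes of `H / A`. -/
def RationalFactor {H : Type u} [Group H] (A B : Subgroup H) [A.Normal] : Prop :=
  ∃ φ : Multiplicative ℚ →* H ⧸ A, Function.Injective φ ∧
    (∀ q, φ q ∈ B.map (QuotientGroup.mk' A)) ∧
    {c : ConjClasses (H ⧸ A) | ∃ q, q ≠ 1 ∧ c = ConjClasses.mk (φ q)}.Finite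

/-- For some prime `p`, every nontrivial finitely generated subgroup of `B / A` has a nontrivial
homomorphism to the group of order `p`. -/
def IndicableFactor {H : Type u} [Group H] (A B : Subgroup H) [A.Normal] : Prop :=
  ∃ p : ℕ, p.Prime ∧ ∀ L : Subgroup (H ⧸ A), L ≤ B.map (QuotientGroup.mk' A) → L.FG → L ≠ ⊥ →
    ∃ χ : L →* Multiplicative (ZMod p), χ ≠ 1

/-- `K` has a complete normal system with good factors in `H`: a chain `C` of normal subgroups of
`H`, containing `1` and `K` and closed under unions and intersections of nonempty subfamilies, such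
that for any two consecutive members `A < B` the factor `B / A` is abelian, or is not a rational
factor, or is an indicable factor. -/
def HasGoodSystem {H : Type u} [Group H] (K : Subgroup H) : Prop :=
  ∃ (C : Set (Subgroup H)) (hn : ∀ A ∈ C, A.Normal), IsChain (· ≤ ·) C ∧ ⊥ ∈ C ∧ K ∈ C ∧
    (∀ D ⊆ C, D.Nonempty → sSup D ∈ C ∧ sInf D ∈ C) ∧
    ∀ (A : Subgroup H) (hA : A ∈ C) (B : Subgroup H), B ∈ C → A < B →
      (∀ K' ∈ C, K' ≤ A ∨ B ≤ K') →
      haveI := hn A hA; AbelianFactor A B ∨ ¬ RationalFactor A B ∨ IndicableFactor A B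

lemma hasSystem {H : Type u} [Group H] {K : Subgroup H} (h : HasGoodSystem K) : HasSystem K := by
  obtain ⟨C, hn, h1, h2, h3, h4, h5⟩ := h
  refine ⟨C, hn, h1, h2, h3, h4, fun A hA B hB hAB hj => ?_⟩
  have := hn A hA
  rcases h5 A hA B hB hAB hj with h | h | h
  · exact Or.inl h
  · refine Or.inr (Or.inl fun hr => h ?_)
    obtain ⟨φ, hφ, hφV, D, hD, hφD⟩ := hr
    refine ⟨φ, hφ, hφV, hD.subset ?_⟩
    rintro _ ⟨q, hq, rfl⟩
    exact hφD q hq
  · exact Or.inr (Or.inr h)

lemma nperfect {G : Type u} [Group G] {M : Type v} [AddCommGroup M]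
    [Module (MonoidAlgebra ℤ G) M]
    (h : Submodule.span (MonoidAlgebra ℤ G) {x : M | ∃ r ∈ augIdeal G, ∃ m : M, x = r • m} = ⊤) :
    NPerfect (⊤ : Subgroup G) M := by
  unfold NPerfect
  rw [eq_top_iff, ← h, Submodule.span_le]
  rintro _ ⟨r, hr, m, rfl⟩
  unfold augIdeal at hr
  change r • m ∈ Submodule.span _ _
  induction hr using Submodule.span_induction with
  | mem x hx =>
    obtain ⟨g, rfl⟩ := hx
    exact Submodule.subset_span ⟨g, Subgroup.mem_top g, m, rfl⟩
  | zero => rw [zero_smul]; exact Submodule.zero_mem _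
  | add x y _ _ hx hy => rw [add_smul]; exact Submodule.add_mem _ hx hy
  | smul a x _ hx => rw [smul_assoc]; exact Submodule.smul_mem _ _ hx

lemma of_nperfect {G : Type u} [Group G] {M : Type v} [AddCommGroup M]
    [Module (MonoidAlgebra ℤ G) M] (h : NPerfect (⊤ : Subgroup G) M) :
    Submodule.span (MonoidAlgebra ℤ G) {x : M | ∃ r ∈ augIdeal G, ∃ m : M, x = r • m} = ⊤ := by
  unfold NPerfect at h
  rw [eq_top_iff, ← h, Submodule.span_le]
  rintro _ ⟨g, _, m, rfl⟩
  exact Submodule.subset_span ⟨_, Ideal.subset_span ⟨g, rfl⟩, m, rfl⟩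

theorem result {G : Type u} [Group G] (N : Subgroup G) [N.Normal]
    (hN : ∀ H : Subgroup G, H.FG → HasGoodSystem (N.subgroupOf H))
    (hQ : NoPerfectProjective.{u, u} (G ⧸ N)) : NoPerfectProjective.{u, v} G := by
  intro M _ _ hfin hproj hM
  obtain ⟨n, e, he, he0, heK⟩ := exists_matrix (⊤ : Subgroup G) M
  apply he0
  by_contra hne
  -- the image in the quotient vanishes
  have h1 : mp n (QuotientGroup.mk' N) e = 0 := by
    have htop : mp n (QuotientGroup.mk' (⊤ : Subgroup (G ⧸ N))) (mp n (QuotientGroup.mk' N) e) =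
        0 := quot_quot_of_le N ⊤ (heK ⊤ inferInstance (nperfect hM)) ⊤ (fun _ _ => trivial)
    obtain ⟨P, hP1, hP2, hP3, hP4⟩ := exists_module (mp_idem (QuotientGroup.mk' N) he) htop
    exact hP4 (hQ P hP1 hP2 (of_nperfect hP3))
  obtain ⟨H, e', hH, rfl⟩ := exists_fg e
  have h2 := mp_subgroupOf N H e' h1
  have h3 : e' * e' = e' := by
    apply mp_injective H.subtype_injective
    rw [map_mul]
    exact he
  have h4 : e' ≠ 0 := by
    rintro rfl
    exact hne (map_zero _)
  obtain ⟨V, hV, h5, h6, h7, h8, h9⟩ := structure_mat h3 h4 (N.subgroupOf H) h2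
  exact not_system h6 h7 h8 h9 h5 (hasSystem (hN H hH))

end Pool.Agent.Results.MP_79a731_al.ExtensionClosure
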