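import Pool.Agent.Work.MP_79a731_al.H5.Mod

/-!
What a finitely generated perfect projective module over an integral group ring forces: a nontrivial
perfect subgroup `V`, normal and finitely normally generated in a finitely generated subgroup `H`,
such that every nontrivial quotient `V / W` with `W` normal in `H` contains a copy of the rational
numbers whose nontrivial elements lie in finitely many conjugacy classes of `H / W` and, for each
prime `p`, a nontrivial finitely generated subgroup with no character of order `p`.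
-/

set_option autoImplicit false

namespace Pool.Agent.Results.MP_79a731_al.PerfectKernel

open Pool.MP_79a731_al.H5

universe u v

theorem result {G : Type u} [Group G] (N : Subgroup G) [N.Normal] (M : Type v) [AddCommGroup M]
    [Module (MonoidAlgebra ℤ G) M] (hfin : Module.Finite (MonoidAlgebra ℤ G) M)
    (hproj : Module.Projective (MonoidAlgebra ℤ G) M) (hnt : Nontrivial M)
    (hM : Submodule.span (MonoidAlgebra ℤ G) {x : M | ∃ g ∈ N, ∃ m : M,
      x = (MonoidAlgebra.single g (1 : ℤ) - 1 : MonoidAlgebra ℤ G) • m} = ⊤) :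
    ∃ (H : Subgroup G) (V : Subgroup H) (_ : V.Normal), H.FG ∧ V ≤ N.subgroupOf H ∧ V ≠ ⊥ ∧
      ⁅V, V⁆ = V ∧ (∃ F : Finset H, V = Subgroup.normalClosure (F : Set H)) ∧
      ∀ (W : Subgroup H) (_ : W.Normal), W < V →
        (∃ φ : Multiplicative ℚ →* H ⧸ W, Function.Injective φ ∧
          (∀ q, φ q ∈ V.map (QuotientGroup.mk' W)) ∧
          {c : ConjClasses (H ⧸ W) | ∃ q, q ≠ 1 ∧ c = ConjClasses.mk (φ q)}.Finite) ∧
        ∀ p : ℕ, p.Prime → ∃ L : Subgroup (H ⧸ W), L ≤ V.map (QuotientGroup.mk' W) ∧ L.FG ∧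
          L ≠ ⊥ ∧ ∀ χ : L →* Multiplicative (ZMod p), χ = 1 := by
  obtain ⟨n, e, he, he0, heK⟩ := exists_matrix N M
  obtain ⟨H, e', hH, rfl⟩ := exists_fg e
  have h1 := mp_subgroupOf N H e' (heK N inferInstance hM)
  have h2 : e' * e' = e' := by
    apply mp_injective H.subtype_injective
    rw [map_mul]
    exact he
  have h3 : e' ≠ 0 := by
    rintro rfl
    have := he0 (map_zero _)
    exact not_subsingleton M this
  obtain ⟨V, hV, h4, h5, h6, h7, h8⟩ := structure_mat h2 h3 (N.subgroupOf H) h1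
  refine ⟨H, V, hV, hH, h4, h5, h6, h7, fun W hW hWV => ?_⟩
  obtain ⟨⟨φ, hφ, hφV, D, hD, hφD⟩, h10⟩ := h8 W hW hWV
  refine ⟨⟨φ, hφ, hφV, hD.subset ?_⟩, fun p hp => h10 p hp⟩
  rintro _ ⟨q, hq, rfl⟩
  exact hφD q hq

end Pool.Agent.Results.MP_79a731_al.PerfectKernel
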