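import Pool.Agent.Work.MP_79a731_al.FP.All

/-!
Projective modules over the integral group ring of an amalgamated free product over a common retract.

`Monoid.PushoutI φ` is the amalgamated free product of the groups `A i` over the group `C` with respect to the homomorphisms
`φ i : C → A i` (for `C` trivial: the free product of the `A i`). Here every `φ i` has a left inverse `ρ i`.
-/

set_option autoImplicit false

namespace Pool.Agent.Results.MP_79a731_al.RetractAmalgams

open Monoid

universe u v w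

/-- The augmentation ideal `I` of the integral group ring. -/
noncomputable def augIdeal (G : Type u) [Group G] : Ideal (MonoidAlgebra ℤ G) :=
  Ideal.span (Set.range (fun g : G =>
    (MonoidAlgebra.single g (1 : ℤ) - 1 : MonoidAlgebra ℤ G)))

/-- `I M = M` -/
def IsPerfect (G : Type u) [Group G] (M : Type v) [AddCommGroup M] [Module (MonoidAlgebra ℤ G) M] : Prop :=
  Submodule.span (MonoidAlgebra ℤ G) {x : M | ∃ r ∈ augIdeal G, ∃ m : M, x = r • m} = ⊤

/-- Every finitely generated projective module `M` with `I M = M` is zero. -/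
def NoPerfectProjective (G : Type u) [Group G] : Prop :=
  ∀ (M : Type u) [AddCommGroup M] [Module (MonoidAlgebra ℤ G) M],
    Module.Finite (MonoidAlgebra ℤ G) M → Module.Projective (MonoidAlgebra ℤ G) M → IsPerfect G M →
    Subsingleton M

/-- Every projective module `M` of any rank with `I M = M` is zero. -/
def NoPerfectProjectiveAnyRank (G : Type u) [Group G] : Prop :=
  ∀ (M : Type u) [AddCommGroup M] [Module (MonoidAlgebra ℤ G) M],
    Module.Projective (MonoidAlgebra ℤ G) M → IsPerfect G M → Subsingleton M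

/-- `M` is generated by the elements `(g - 1) m` with `g` in the normal subgroup `N`; that is, the group ring of `G / N` tensored with
`M` over the group ring of `G` is zero. -/
def GeneratedBy {G : Type u} [Group G] (N : Subgroup G) (M : Type v) [AddCommGroup M]
    [Module (MonoidAlgebra ℤ G) M] : Prop :=
  Submodule.span (MonoidAlgebra ℤ G) {x : M | ∃ g ∈ N, ∃ m : M,
    x = (MonoidAlgebra.single g (1 : ℤ) - 1 : MonoidAlgebra ℤ G) • m} = ⊤

lemma gen_of_perfect {G : Type u} [Group G] {M : Type v} [AddCommGroup M]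
    [Module (MonoidAlgebra ℤ G) M] (h : IsPerfect G M) :
    Pool.Agent.Work.MP_79a731_al.FP.Gen (⊤ : Subgroup G) M := by
  unfold IsPerfect at h
  unfold Pool.Agent.Work.MP_79a731_al.FP.Gen
  rw [eq_top_iff, ← h, Submodule.span_le]
  rintro _ ⟨r, hr, m, rfl⟩
  unfold augIdeal at hr
  change r • m ∈ Submodule.span _ _
  induction hr using Submodule.span_induction with
  | mem x hx =>
    obtain ⟨g, rfl⟩ := hx
    exact Submodule.subset_span ⟨g, Subgroup.mem_top g, m, rfl⟩
  | zero => rw [zero_smul]; exact Submodule.zero_mem _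
  | add x y _ _ hx hy => rw [add_smul]; exact Submodule.add_mem _ hx hy
  | smul a x _ hx => rw [smul_assoc]; exact Submodule.smul_mem _ _ hx

lemma perfect_of_gen {G : Type u} [Group G] {M : Type v} [AddCommGroup M]
    [Module (MonoidAlgebra ℤ G) M] (h : Pool.Agent.Work.MP_79a731_al.FP.Gen (⊤ : Subgroup G) M) :
    IsPerfect G M := by
  unfold Pool.Agent.Work.MP_79a731_al.FP.Gen at h
  unfold IsPerfect
  rw [eq_top_iff, ← h, Submodule.span_le]
  rintro _ ⟨g, _, m, rfl⟩
  exact Submodule.subset_span ⟨_, Ideal.subset_span ⟨g, rfl⟩, m, rfl⟩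

lemma map_inj {G : Type u} {H : Type w} [Group G] [Group H] {f : G →* H} (hf : Function.Injective f)
    (x : MonoidAlgebra ℤ G) (hx : MonoidAlgebra.mapDomainRingHom ℤ f x = 0) : x = 0 := by
  apply MonoidAlgebra.coeff_injective
  apply Finsupp.mapDomain_injective hf
  have h1 : MonoidAlgebra.mapDomainRingHom ℤ f x = MonoidAlgebra.mapDomainRingHom ℤ f 0 := by
    rw [hx, map_zero]
  have h2 := congrArg MonoidAlgebra.coeff h1
  rw [MonoidAlgebra.mapDomainRingHom_apply, MonoidAlgebra.mapDomainRingHom_apply,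
    MonoidAlgebra.coeff_mapDomain, MonoidAlgebra.coeff_mapDomain] at h2
  exact h2

lemma exists_section {R : Type u} [Ring R] (M : Type v) [AddCommGroup M] [Module R M] (h : Module.Projective R M) :
    ∃ s : M →ₗ[R] (M →₀ R), ∀ x : M, Finsupp.linearCombination R id (s x) = x := by
  obtain ⟨s, hs⟩ := Module.projective_def'.mp h
  exact ⟨s, fun x => congrArg (fun f : M →ₗ[R] M => f x) hs⟩

theorem result {ι : Type u} [Nonempty ι] {A : ι → Type u} {C : Type u} [∀ i, Group (A i)] [Group C]
    (φ : ∀ i, C →* A i) (ρ : ∀ i, A i →* C) (hρ : ∀ i c, ρ i (φ i c) = c) :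
    (∃ π : ∀ i, PushoutI φ →* A i, (∀ i a, π i (PushoutI.of i a) = a) ∧
      (∀ i j a, j ≠ i → π i (PushoutI.of j a) = φ i (ρ j a)) ∧
      ∀ (M : Type v) [AddCommGroup M] [Module (MonoidAlgebra ℤ (PushoutI φ)) M],
        Module.Projective (MonoidAlgebra ℤ (PushoutI φ)) M → (∀ i, GeneratedBy (π i).ker M) → Subsingleton M) ∧
    (NoPerfectProjectiveAnyRank (PushoutI φ) ↔ ∀ i, NoPerfectProjectiveAnyRank (A i)) ∧
    (NoPerfectProjective (PushoutI φ) ↔ ∀ i, NoPerfectProjective (A i)) := by
  obtain ⟨π, hπ1, hπ2, hπ3⟩ := Pool.Agent.Work.MP_79a731_al.FP.hRT φ ρ hρ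
  have hof : ∀ i, Function.Injective (PushoutI.of (φ := φ) i) := fun i =>
    Function.LeftInverse.injective (g := π i) (hπ1 i)
  refine ⟨⟨π, hπ1, hπ2, fun M _ _ hM hspan => ?_⟩, ⟨?_, ?_⟩, ⟨?_, ?_⟩⟩
  · exact Pool.Agent.Work.MP_79a731_al.FP.hPR φ ρ π hρ hπ1 hπ2 hπ3 M hM hspan
  · intro hG i M _ _ hproj hM
    obtain ⟨s, hs⟩ := exists_section M hproj
    obtain ⟨P, hP1, hP2, hP3, hP4⟩ :=
      Pool.Agent.Work.MP_79a731_al.FP.base_change (PushoutI.of (φ := φ) i) M s hs
    have h1 := hP4 (hG P hP1 (perfect_of_gen (hP3 (gen_of_perfect hM))))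
    have h2 : ∀ x : M, x = 0 := by
      intro x
      have h3 : s x = 0 := Finsupp.ext fun y => map_inj (hof i) _ (h1 x y)
      rw [← hs x, h3, map_zero]
    exact ⟨fun a b => by rw [h2 a, h2 b]⟩
  · intro hA M _ _ hproj hM
    obtain ⟨s, hs⟩ := exists_section M hproj
    refine Pool.Agent.Work.MP_79a731_al.FP.hPS φ ρ π hρ hπ1 hπ2 hπ3 M s hs fun i => ?_
    obtain ⟨P, hP1, hP2, hP3, hP4⟩ := Pool.Agent.Work.MP_79a731_al.FP.base_change (π i) M s hs
    exact hP4 (hA i P hP1 (perfect_of_gen (hP3 (gen_of_perfect hM))))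
  · intro hG i M _ _ hfin hproj hM
    obtain ⟨s, hs⟩ := exists_section M hproj
    obtain ⟨P, hP1, hP2, hP3, hP4⟩ :=
      Pool.Agent.Work.MP_79a731_al.FP.base_change (PushoutI.of (φ := φ) i) M s hs
    have h1 := hP4 (hG P (hP2 hfin) hP1 (perfect_of_gen (hP3 (gen_of_perfect hM))))
    have h2 : ∀ x : M, x = 0 := by
      intro x
      have h3 : s x = 0 := Finsupp.ext fun y => map_inj (hof i) _ (h1 x y)
      rw [← hs x, h3, map_zero]
    exact ⟨fun a b => by rw [h2 a, h2 b]⟩
  · intro hA M _ _ hfin hproj hM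
    obtain ⟨s, hs⟩ := exists_section M hproj
    refine Pool.Agent.Work.MP_79a731_al.FP.hPS φ ρ π hρ hπ1 hπ2 hπ3 M s hs fun i => ?_
    obtain ⟨P, hP1, hP2, hP3, hP4⟩ := Pool.Agent.Work.MP_79a731_al.FP.base_change (π i) M s hs
    exact hP4 (hA i P (hP2 hfin) hP1 (perfect_of_gen (hP3 (gen_of_perfect hM))))

end Pool.Agent.Results.MP_79a731_al.RetractAmalgams
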